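import Mathlib
import Pool.Graph.R_seed8.Results.MP_c7df87_gt.ClopenSubspaces
import Pool.Graph.R_seed8.H94R3.CellLin

/-!
# Many countable crowded Whyburn spaces that are not D-separable
-/

set_option autoImplicit false

namespace Pool.Agent.KS6_1.Whyb

open Set Topology TopologicalSpace Filter
open Pool.Agent.H94R3.Sigma
open Pool.Agent.Results.MP_c7df87_gt.ClopenSubspaces (Whyburn whyburn_aux)

/-- D-separability is inherited by open subspaces. -/
lemma selectively_of_isOpenEmbedding {X Y : Type*} [TopologicalSpace X] [TopologicalSpace Y]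
    {f : X → Y} (hf : IsOpenEmbedding f) (hY : SelectivelyDSeparable Y) :
    SelectivelyDSeparable X := by
  intro D hD
  obtain ⟨F, hF, hF'⟩ := hY (fun n => f '' D n ∪ (range f)ᶜ) (fun n => by
    intro y
    by_cases hy : y ∈ range f
    · obtain ⟨x, rfl⟩ := hy
      apply closure_mono subset_union_left
      exact image_closure_subset_closure_image hf.continuous ⟨x, hD n x, rfl⟩
    · exact subset_closure (Or.inr hy))
  refine ⟨fun n => f ⁻¹' F n, fun n => ⟨?_, ?_⟩, ?_⟩
  · intro x hx
    rcases (hF n).1 hx with ⟨x', hx', h1⟩ | h1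
    · rw [← hf.injective h1]
      exact hx'
    · exact absurd (mem_range_self x) h1
  · have h1 := (hF n).2
    rw [isDiscrete_iff_forall_mem_exists_isOpen] at h1 ⊢
    intro x hx
    obtain ⟨U, hU, hU'⟩ := h1 _ hx
    refine ⟨f ⁻¹' U, hU.preimage hf.continuous, ?_⟩
    rw [← preimage_inter, hU']
    ext z
    simp [hf.injective.eq_iff]
  · rw [← preimage_iUnion]
    exact hF'.preimage hf.isOpenMap

/-- There is a countable regular Whyburn space without isolated points that is not D-separable. -/
theorem exists_crowded : ∃ (Z : Type) (_ : TopologicalSpace Z), Countable Z ∧ Nonempty Z ∧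
    T3Space Z ∧ Whyburn Z ∧ (∀ z : Z, ¬ IsOpen {z}) ∧ ¬ SelectivelyDSeparable Z := by
  obtain ⟨X, _, h1, h2, h3, -, -, h6⟩ :=
    Pool.Agent.Results.MP_c7df87_gt.CountableWhyburn.result
  let I : Set X := {x | IsOpen {x}}
  let U : Set X := (closure I)ᶜ
  have hU : IsOpen U := isClosed_closure.isOpen_compl
  have hnot : ¬ SelectivelyDSeparable U := by
    intro hZ
    apply h6
    intro D hD
    obtain ⟨F, hF, hF'⟩ := hZ (fun n => Subtype.val ⁻¹' D n)
      (fun n => (hD n).preimage hU.isOpenMap_subtype_val)
    refine ⟨fun n => Subtype.val '' F n ∪ I, fun n => ⟨?_, ?_⟩, ?_⟩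
    · rintro x (⟨u, hu, rfl⟩ | hx)
      · exact (hF n).1 hu
      · obtain ⟨y, hy, hy'⟩ := (hD n).inter_open_nonempty {x} hx (singleton_nonempty x)
        rw [mem_singleton_iff] at hy
        rw [← hy]
        exact hy'
    · rw [isDiscrete_iff_forall_mem_exists_isOpen]
      rintro x (⟨u, hu, rfl⟩ | hx)
      · have h4 := (hF n).2
        rw [isDiscrete_iff_forall_mem_exists_isOpen] at h4
        obtain ⟨V, hV, hV'⟩ := h4 u hu
        refine ⟨Subtype.val '' V, hU.isOpenMap_subtype_val V hV, ?_⟩
        ext y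
        constructor
        · rintro ⟨⟨v, hv, rfl⟩, hy⟩
          rcases hy with ⟨w, hw, hwv⟩ | hy
          · have h5 : w = v := Subtype.ext hwv
            subst h5
            have h6 : w ∈ V ∩ F n := ⟨hv, hw⟩
            rw [hV'] at h6
            rw [mem_singleton_iff] at h6 ⊢
            rw [h6]
          · exact absurd (subset_closure hy) v.2
        · intro hy
          rw [mem_singleton_iff] at hy
          subst hy
          have h6 : u ∈ V ∩ F n := by
            rw [hV']
            rfl
          exact ⟨⟨u, h6.1, rfl⟩, Or.inl ⟨u, hu, rfl⟩⟩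
      · refine ⟨{x}, hx, ?_⟩
        ext y
        constructor
        · exact fun h => h.1
        · intro h
          refine ⟨h, Or.inr ?_⟩
          rw [mem_singleton_iff] at h
          rw [h]
          exact hx
    · intro x
      by_cases hx : x ∈ closure I
      · refine closure_mono ?_ hx
        intro y hy
        exact mem_iUnion.2 ⟨0, Or.inr hy⟩
      · have h4 : (⟨x, hx⟩ : U) ∈ closure (⋃ n, F n) := hF' _
        have h5 := image_closure_subset_closure_image continuous_subtype_val ⟨_, h4, rfl⟩
        refine closure_mono ?_ h5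
        rintro _ ⟨v, hv, rfl⟩
        obtain ⟨n, hn⟩ := mem_iUnion.1 hv
        exact mem_iUnion.2 ⟨n, Or.inl ⟨v, hn, rfl⟩⟩
  refine ⟨U, inferInstance, inferInstance, ?_, inferInstance, ?_, ?_, hnot⟩
  · by_contra hne
    rw [not_nonempty_iff] at hne
    apply hnot
    intro D _
    refine ⟨fun _ => ∅, fun n => ⟨empty_subset _, ?_⟩, fun x => (hne.false x).elim⟩
    rw [isDiscrete_iff_forall_mem_exists_isOpen]
    exact fun x hx => absurd hx (notMem_empty x)
  · intro A p hp
    obtain ⟨B, hB, hB'⟩ := h3 (Subtype.val '' A) p ⟨by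
      exact image_closure_subset_closure_image continuous_subtype_val ⟨p, hp.1, rfl⟩, by
      rintro ⟨q, hq, hqp⟩
      rw [Subtype.ext hqp] at hq
      exact hp.2 hq⟩
    refine ⟨Subtype.val ⁻¹' B, ?_, ?_⟩
    · intro u hu
      obtain ⟨v, hv, hvu⟩ := hB hu
      rw [← Subtype.ext hvu]
      exact hv
    · have h4 : Subtype.val '' (Subtype.val ⁻¹' B : Set U) = B := by
        rw [image_preimage_eq_iff]
        intro x hx
        obtain ⟨v, -, rfl⟩ := hB hx
        exact mem_range_self v
      rw [IsInducing.subtypeVal.closure_eq_preimage_closure_image, h4, hB']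
      ext u
      simp [Subtype.ext_iff]
  · intro z hz
    have h4 : IsOpen (Subtype.val '' {z}) := hU.isOpenMap_subtype_val _ hz
    rw [image_singleton] at h4
    exact z.2 (subset_closure h4)

section space

variable {Z : Type} [TopologicalSpace Z]

/-- Countably many copies of `Z` and a point `none` whose neighbourhoods contain almost all copies,
in the sense of the filter `F`. -/
@[instance_reducible]
def top (Z : Type) [TopologicalSpace Z] (F : Filter ℕ) : TopologicalSpace (Option (ℕ × Z)) where
  IsOpen U := (∀ n, IsOpen {z | some (n, z) ∈ U}) ∧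
    (none ∈ U → ∀ᶠ n in F, ∀ z, some (n, z) ∈ U)
  isOpen_univ := ⟨fun n => by simp, fun _ => by simp⟩
  isOpen_inter := by
    rintro U V ⟨hU, hU'⟩ ⟨hV, hV'⟩
    refine ⟨fun n => (hU n).inter (hV n), fun h => ?_⟩
    filter_upwards [hU' h.1, hV' h.2] with n h1 h2 z
    exact ⟨h1 z, h2 z⟩
  isOpen_sUnion := by
    intro S hS
    refine ⟨fun n => ?_, ?_⟩
    · have : {z | some (n, z) ∈ ⋃₀ S} = ⋃ U ∈ S, {z | some (n, z) ∈ U} := by
        ext z; simp
      rw [this]
      exact isOpen_biUnion fun U hU => (hS U hU).1 n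
    · rintro ⟨U, hU, h⟩
      filter_upwards [(hS U hU).2 h] with n h1 z
      exact ⟨U, hU, h1 z⟩

/-- the basic neighbourhoods of the additional point -/
def W (Z : Type) (A : Set ℕ) : Set (Option (ℕ × Z)) := {x | ∀ n z, x = some (n, z) → n ∈ A}

omit [TopologicalSpace Z] in
lemma none_mem_W (A : Set ℕ) : none ∈ W Z A := fun _ _ h => by simp at h

omit [TopologicalSpace Z] in
lemma some_mem_W {A : Set ℕ} {n : ℕ} {z : Z} : some (n, z) ∈ W Z A ↔ n ∈ A := by
  constructor
  · exact fun h => h n z rfl
  · intro h m w hm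
    simp only [Option.some.injEq, Prod.mk.injEq] at hm
    rw [← hm.1]
    exact h

variable (F : Filter ℕ)

lemma isOpen_iff (U : Set (Option (ℕ × Z))) : IsOpen[top Z F] U ↔
    (∀ n, IsOpen {z | some (n, z) ∈ U}) ∧ (none ∈ U → ∀ᶠ n in F, ∀ z, some (n, z) ∈ U) :=
  Iff.rfl

lemma isOpen_W [Nonempty Z] (A : Set ℕ) : IsOpen[top Z F] (W Z A) ↔ A ∈ F := by
  rw [isOpen_iff]
  constructor
  · intro h
    filter_upwards [h.2 (none_mem_W A)] with n hn
    exact some_mem_W.1 (hn (Classical.arbitrary Z))
  · intro h
    refine ⟨fun n => ?_, fun _ => ?_⟩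
    · by_cases hn : n ∈ A
      · simp [some_mem_W, hn]
      · simp [some_mem_W, hn]
    · filter_upwards [h] with n hn z
      exact some_mem_W.2 hn

lemma isClosed_W (A : Set ℕ) : IsClosed[top Z F] (W Z A) := by
  rw [← @isOpen_compl_iff _ _ (top Z F), isOpen_iff]
  refine ⟨fun n => ?_, fun h => absurd (none_mem_W A) h⟩
  by_cases hn : n ∈ A
  · simp [some_mem_W, hn]
  · simp [some_mem_W, hn]

/-- the copy with number `n` -/
def emb (n : ℕ) (z : Z) : Option (ℕ × Z) := some (n, z)

omit [TopologicalSpace Z] in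
lemma emb_injective (n : ℕ) : Function.Injective (emb (Z := Z) n) := by
  intro a b h
  simpa [emb] using h

lemma continuous_emb (n : ℕ) : @Continuous _ _ _ (top Z F) (emb (Z := Z) n) := by
  let _ := top Z F
  rw [continuous_def]
  intro U hU
  exact hU.1 n

lemma isOpenMap_emb (n : ℕ) : @IsOpenMap _ _ _ (top Z F) (emb (Z := Z) n) := by
  let _ := top Z F
  intro V hV
  show IsOpen[top Z F] _
  rw [isOpen_iff]
  refine ⟨fun m => ?_, ?_⟩
  · by_cases hm : m = n
    · subst hm
      simpa [emb] using hV
    · have : {z | some (m, z) ∈ emb (Z := Z) n '' V} = ∅ := by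
        ext z
        simp only [emb, mem_image, Option.some.injEq, Prod.mk.injEq, mem_ofPred_eq,
          mem_empty_iff_false, iff_false, not_exists, not_and]
        intro a _ h
        exact absurd h.symm hm
      rw [this]
      exact isOpen_empty
  · rintro ⟨z, -, hz⟩
    exact absurd hz (by simp [emb])

lemma isOpenEmbedding_emb (n : ℕ) : @IsOpenEmbedding _ _ _ (top Z F) (emb (Z := Z) n) := by
  let _ := top Z F
  exact .of_continuous_injective_isOpenMap (continuous_emb F n) (emb_injective n)
    (isOpenMap_emb F n)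

lemma isClosed_range_emb (hF : F ≤ cofinite) (n : ℕ) :
    IsClosed[top Z F] (range (emb (Z := Z) n)) := by
  rw [← @isOpen_compl_iff _ _ (top Z F), isOpen_iff]
  refine ⟨fun m => ?_, fun _ => ?_⟩
  · by_cases hm : m = n
    · subst hm
      simp [emb]
    · have : {z | some (m, z) ∈ (range (emb (Z := Z) n))ᶜ} = univ := by
        ext z
        simp only [emb, mem_compl_iff, mem_range, Option.some.injEq, Prod.mk.injEq, not_exists,
          not_and, mem_ofPred_eq, mem_univ, iff_true]
        intro _ h
        exact absurd h.symm hm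
      rw [this]
      exact isOpen_univ
  · have h1 : {m | m ≠ n} ∈ F := hF (by
      rw [mem_cofinite]
      have : {m | m ≠ n}ᶜ = {n} := by ext; simp
      rw [this]
      exact finite_singleton n)
    filter_upwards [h1] with m hm z
    rintro ⟨w, hw⟩
    simp only [emb, Option.some.injEq, Prod.mk.injEq] at hw
    exact hm hw.1.symm

lemma isClosedEmbedding_emb (hF : F ≤ cofinite) (n : ℕ) :
    @IsClosedEmbedding _ _ _ (top Z F) (emb (Z := Z) n) := by
  let _ := top Z F
  exact ⟨(isOpenEmbedding_emb F n).isEmbedding, isClosed_range_emb F hF n⟩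

lemma whyburn_top (hZ : Whyburn Z) [T1Space Z] (hF : F ≤ cofinite) :
    @Whyburn _ (top Z F) := by
  classical
  let _ := top Z F
  intro A p hp
  match p, hp with
  | some (n, z), hp =>
    exact whyburn_aux hZ (emb n) (isOpenEmbedding_emb F n) (isClosedEmbedding_emb F hF n) A z hp
  | none, hp =>
    have hch : ∀ n : {n : ℕ | ∃ z : Z, some (n, z) ∈ A}, ∃ z : Z, some (n.1, z) ∈ A := fun n => n.2
    choose b hb using hch
    refine ⟨range (fun n : {n : ℕ | ∃ z : Z, some (n, z) ∈ A} => some (n.1, b n)), ?_, ?_⟩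
    · rintro _ ⟨n, rfl⟩
      exact hb n
    · apply Subset.antisymm
      · intro x hx
        match x, hx with
        | none, _ => exact Or.inr rfl
        | some (n, z), hx =>
          left
          by_contra hcon
          have hopen : IsOpen (emb n '' {w : Z | ∃ h : ∃ z : Z, some (n, z) ∈ A, w = b ⟨n, h⟩}ᶜ) := by
            apply isOpenMap_emb F n
            rw [isOpen_compl_iff]
            apply Set.Subsingleton.isClosed
            rintro w ⟨h, rfl⟩ w' ⟨h', rfl⟩
            rfl
          have hmem : some (n, z) ∈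
              emb n '' {w : Z | ∃ h : ∃ z : Z, some (n, z) ∈ A, w = b ⟨n, h⟩}ᶜ := by
            refine ⟨z, ?_, rfl⟩
            rintro ⟨h, hz⟩
            exact hcon ⟨⟨n, h⟩, by show some (n, b ⟨n, h⟩) = some (n, z); rw [← hz]⟩
          obtain ⟨y, hy1, hy2⟩ := mem_closure_iff.1 hx _ hopen hmem
          obtain ⟨w, hw, rfl⟩ := hy1
          obtain ⟨m, hm⟩ := hy2
          simp only [emb, Option.some.injEq, Prod.mk.injEq] at hm
          obtain ⟨m, hm'⟩ := m
          obtain ⟨h1, h2⟩ := hm
          simp only at h1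
          subst h1
          exact hw ⟨hm', h2.symm⟩
      · rintro x (hx | hx)
        · exact subset_closure hx
        · rw [mem_singleton_iff] at hx
          subst hx
          rw [mem_closure_iff]
          intro U hU hn
          have h1 : {n | ∀ z : Z, some (n, z) ∈ U} ∈ F := hU.2 hn
          by_cases hne : Nonempty Z
          · obtain ⟨y, hy1, hy2⟩ := mem_closure_iff.1 hp.1 (W Z {n | ∀ z : Z, some (n, z) ∈ U})
              ((isOpen_W F _).2 h1) (none_mem_W _)
            match y, hy1, hy2 with
            | none, _, hy2 => exact absurd hy2 hp.2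
            | some (m, w), hy1, hy2 =>
              refine ⟨some (m, b ⟨m, ⟨w, hy2⟩⟩), some_mem_W.1 hy1 _, ⟨m, ⟨w, hy2⟩⟩, rfl⟩
          · obtain ⟨y, -, hy2⟩ := mem_closure_iff.1 hp.1 univ isOpen_univ (mem_univ _)
            match y, hy2 with
            | none, hy2 => exact absurd hy2 hp.2
            | some (m, w), _ => exact absurd ⟨w⟩ hne

lemma t3_top [T3Space Z] (hF : F ≤ cofinite) : @T3Space _ (top Z F) := by
  classical
  let _ := top Z F
  have h1 : RegularSpace (Option (ℕ × Z)) := by
    apply RegularSpace.of_exists_mem_nhds_isClosed_subset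
    rintro (_ | ⟨n, z⟩) s hs
    · obtain ⟨U, hUs, hU, hn⟩ := mem_nhds_iff.1 hs
      have h2 : {n | ∀ z : Z, some (n, z) ∈ U} ∈ F := hU.2 hn
      by_cases hne : Nonempty Z
      · refine ⟨W Z {n | ∀ z : Z, some (n, z) ∈ U},
          ((isOpen_W F _).2 h2).mem_nhds (none_mem_W _), isClosed_W F _, ?_⟩
        rintro (_ | ⟨m, w⟩) hx
        · exact hUs hn
        · exact hUs (some_mem_W.1 hx w)
      · refine ⟨univ, univ_mem, isClosed_univ, ?_⟩
        rintro (_ | ⟨m, w⟩) _
        · exact hUs hn
        · exact absurd ⟨w⟩ hne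
    · have h2 : emb n ⁻¹' s ∈ 𝓝 z := (continuous_emb F n).continuousAt.preimage_mem_nhds hs
      obtain ⟨t, ht, htc, hts⟩ := exists_mem_nhds_isClosed_subset h2
      exact ⟨emb n '' t, (isOpenEmbedding_emb F n).image_mem_nhds.2 ht,
        (isClosedEmbedding_emb F hF n).isClosedMap _ htc, image_subset_iff.2 hts⟩
  have h2 : T1Space (Option (ℕ × Z)) := by
    constructor
    rintro (_ | ⟨n, z⟩)
    · rw [← isOpen_compl_iff]
      show IsOpen[top Z F] _
      rw [isOpen_iff]
      exact ⟨fun n => by simp, fun h => absurd rfl h⟩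
    · have h3 : ({some (n, z)} : Set (Option (ℕ × Z))) = emb n '' {z} := by
        rw [image_singleton]
        rfl
      rw [h3]
      exact (isClosedEmbedding_emb F hF n).isClosedMap _ isClosed_singleton
  exact {}

lemma crowded_top [F.NeBot] [Nonempty Z] (hZ : ∀ z : Z, ¬ IsOpen {z}) (x : Option (ℕ × Z)) :
    ¬ IsOpen[top Z F] {x} := by
  rw [isOpen_iff]
  rintro ⟨h1, h2⟩
  match x, h1, h2 with
  | some (n, z), h1, _ =>
    apply hZ z
    have := h1 n
    simpa using this
  | none, _, h2 =>
    obtain ⟨n, hn⟩ := (h2 rfl).exists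
    have := hn (Classical.arbitrary Z)
    simp at this

end space

end Pool.Agent.KS6_1.Whyb
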