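import Mathlib
import Pool.Agent.KS6_1.Whyb.Space

/-!
# Counting homeomorphism types
-/

set_option autoImplicit false

namespace Pool.Agent.KS6_1.Whyb

open Set Topology TopologicalSpace Filter
open Cardinal (continuum aleph0 mk)
open Pool.Agent.H94R3.Sigma
open Pool.Agent.Results.MP_c7df87_gt.ClopenSubspaces (Whyburn whyburn_aux)

/-- the filter attached to a subset of the index set of an independent family -/
def FS (A : (ℕ → Bool) → Set ℕ) (S : Set (ℕ → Bool)) : Filter ℕ :=
  atTop ⊓ ⨅ w, 𝓟 {n | n ∈ A w ↔ w ∈ S}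

def Indep (A : (ℕ → Bool) → Set ℕ) : Prop :=
  ∀ (J : Finset (ℕ → Bool)) (p : Set (ℕ → Bool)) (N : ℕ), ∃ s, N ≤ s ∧ ∀ w ∈ J, (s ∈ A w ↔ w ∈ p)

lemma FS_neBot {A : (ℕ → Bool) → Set ℕ} (hA : Indep A) (S : Set (ℕ → Bool)) : (FS A S).NeBot := by
  rw [neBot_iff]
  intro h
  have h1 : (∅ : Set ℕ) ∈ FS A S := by rw [h]; exact mem_bot
  obtain ⟨U, hU, V, hV, hUV⟩ := mem_inf_iff.1 h1
  obtain ⟨N, hN⟩ := mem_atTop_sets.1 hU
  rw [mem_iInf_finite] at hV
  obtain ⟨t, ht⟩ := hV
  rw [iInf_principal_finset, mem_principal] at ht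
  obtain ⟨s, hs, hst⟩ := hA t S N
  have h2 : s ∈ U ∩ V := ⟨hN s hs, ht (by
    simp only [mem_iInter]
    intro w hw
    exact hst w hw)⟩
  rw [← hUV] at h2
  exact h2

lemma FS_le (A : (ℕ → Bool) → Set ℕ) (S : Set (ℕ → Bool)) : FS A S ≤ cofinite := by
  rw [Nat.cofinite_eq_atTop]
  exact inf_le_left

lemma mem_FS (A : (ℕ → Bool) → Set ℕ) (S : Set (ℕ → Bool)) (w : ℕ → Bool) :
    {n | n ∈ A w ↔ w ∈ S} ∈ FS A S :=
  mem_inf_of_right (mem_iInf_of_mem w (mem_principal_self _))

lemma FS_injective {A : (ℕ → Bool) → Set ℕ} (hA : Indep A) : Function.Injective (FS A) := by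
  intro S T h
  ext w
  have := FS_neBot hA S
  have h1 := mem_FS A S w
  have h2 := mem_FS A T w
  rw [← h] at h2
  obtain ⟨n, hn1, hn2⟩ := Filter.nonempty_of_mem (Filter.inter_mem h1 h2)
  exact hn1.symm.trans hn2

variable {Z : Type} [TopologicalSpace Z]

lemma top_injective [Nonempty Z] : Function.Injective (top Z) := by
  intro F G h
  ext A
  rw [← isOpen_W (Z := Z) F A, ← isOpen_W (Z := Z) G A, h]

/-- homeomorphic topologies -/
def Homeo {P : Type} (s t : TopologicalSpace P) : Prop :=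
  ∃ e : P ≃ P, ∀ U : Set P, IsOpen[t] U ↔ IsOpen[s] (e ⁻¹' U)

lemma homeo_iff {P : Type} (s t : TopologicalSpace P) :
    Homeo s t ↔ Nonempty (@Homeomorph P P s t) := by
  constructor
  · rintro ⟨e, he⟩
    refine ⟨@Homeomorph.mk P P s t e ?_ ?_⟩
    · rw [@continuous_def _ _ s t]
      exact fun U hU => (he U).1 hU
    · rw [@continuous_def _ _ t s]
      intro U hU
      rw [he]
      convert hU
      ext x
      simp
  · rintro ⟨e⟩
    exact ⟨@Homeomorph.toEquiv P P s t e, fun U =>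
      (@Homeomorph.isOpen_preimage P P s t e U).symm⟩

lemma Homeo.symm {P : Type} {s t : TopologicalSpace P} (h : Homeo s t) : Homeo t s := by
  rw [homeo_iff] at h ⊢
  obtain ⟨e⟩ := h
  exact ⟨@Homeomorph.symm P P s t e⟩

lemma Homeo.trans {P : Type} {s t u : TopologicalSpace P} (h : Homeo s t) (h' : Homeo t u) :
    Homeo s u := by
  rw [homeo_iff] at h h' ⊢
  obtain ⟨e⟩ := h
  obtain ⟨e'⟩ := h'
  exact ⟨@Homeomorph.trans P P P s t u e e'⟩

/-- A family of `2 ^ 𝔠` topologies on a countable set contains `2 ^ 𝔠` pairwise non-homeomorphic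
ones. -/
theorem exists_many {P : Type} [Countable P] (τ : Set (ℕ → Bool) → TopologicalSpace P)
    (hτ : Function.Injective τ) : ∃ 𝒯 ⊆ range τ, mk 𝒯 = 2 ^ continuum.{0} ∧
      ∀ s ∈ 𝒯, ∀ t ∈ 𝒯, s ≠ t → ¬ Homeo s t := by
  classical
  let st : Setoid (Set (ℕ → Bool)) :=
    { r := fun S T => Homeo (τ S) (τ T)
      iseqv := ⟨fun S => ⟨Equiv.refl _, fun U => Iff.rfl⟩, fun h => h.symm,
        fun h h' => h.trans h'⟩ }
  -- the classes have at most `𝔠` elements
  have hcl : ∀ q : Quotient st, mk {S // Quotient.mk st S = q} ≤ continuum.{0} := by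
    intro q
    induction q using Quotient.inductionOn with
    | _ S =>
      have h1 : ∀ T : {T // Quotient.mk st T = Quotient.mk st S}, Homeo (τ S) (τ T.1) :=
        fun T => Quotient.exact T.2.symm
      choose e he using h1
      have hinj : Function.Injective e := by
        intro T T' h
        apply Subtype.ext
        apply hτ
        ext U
        rw [he T U, he T' U, h]
      have h2 : mk {T // Quotient.mk st T = Quotient.mk st S} ≤ mk (P → P) :=
        (Cardinal.mk_le_of_injective hinj).trans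
          (Cardinal.mk_le_of_injective (f := fun e : P ≃ P => (e : P → P))
            (fun a b h => Equiv.coe_fn_injective h))
      refine h2.trans ?_
      rw [← Cardinal.power_def]
      calc mk P ^ mk P ≤ aleph0 ^ mk P := Cardinal.power_le_power_right Cardinal.mk_le_aleph0
        _ ≤ aleph0 ^ aleph0 :=
          Cardinal.power_le_power_left Cardinal.aleph0_ne_zero Cardinal.mk_le_aleph0
        _ = continuum.{0} := Cardinal.aleph0_power_aleph0
  have htot : mk (Set (ℕ → Bool)) = 2 ^ continuum.{0} := by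
    rw [Cardinal.mk_set]
    congr 1
    simp
  have hle : (2 : Cardinal.{0}) ^ continuum.{0} ≤ mk (Quotient st) * continuum.{0} := by
    rw [← htot, ← Cardinal.mk_congr (Equiv.sigmaFiberEquiv (Quotient.mk st)), Cardinal.mk_sigma]
    calc Cardinal.sum (fun q : Quotient st => mk {S // Quotient.mk st S = q})
        ≤ Cardinal.sum (fun _ : Quotient st => continuum.{0}) := Cardinal.sum_le_sum _ _ hcl
      _ = mk (Quotient st) * continuum.{0} := by simp
  have hQ : mk (Quotient st) = 2 ^ continuum.{0} := by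
    apply le_antisymm
    · rw [← htot]
      exact Cardinal.mk_le_of_surjective Quotient.mk_surjective
    · by_contra hlt
      rw [not_le] at hlt
      have h3 : mk (Quotient st) * continuum.{0} < 2 ^ continuum.{0} :=
        Cardinal.mul_lt_of_lt (Cardinal.aleph0_le_continuum.trans (Cardinal.cantor _).le) hlt
          (Cardinal.cantor _)
      exact absurd hle (not_le.2 h3)
  have hout : ∀ q q' : Quotient st, Homeo (τ q.out) (τ q'.out) → q = q' := by
    intro q q' h
    have h1 : Quotient.mk st q.out = Quotient.mk st q'.out := Quotient.sound h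
    rwa [Quotient.out_eq, Quotient.out_eq] at h1
  refine ⟨range (fun q : Quotient st => τ q.out), ?_, ?_, ?_⟩
  · rintro _ ⟨q, rfl⟩
    exact ⟨_, rfl⟩
  · rw [Cardinal.mk_range_eq, hQ]
    intro q q' h
    apply hout
    have h' : τ q.out = τ q'.out := h
    rw [h']
    exact ⟨Equiv.refl _, fun U => Iff.rfl⟩
  · rintro _ ⟨q, rfl⟩ _ ⟨q', rfl⟩ hne h
    exact hne (by rw [hout q q' h])

/-- There are `2 ^ 𝔠` pairwise non-homeomorphic countable crowded regular Whyburn spaces that are not
D-separable. -/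
theorem many : ∃ (P : Type) (_ : Countable P) (𝒯 : Set (TopologicalSpace P)),
    mk 𝒯 = 2 ^ continuum.{0} ∧
    (∀ t ∈ 𝒯, @T3Space P t ∧ @Whyburn P t ∧ (∀ x, ¬ IsOpen[t] {x}) ∧
      ¬ @SelectivelyDSeparable P t) ∧
    ∀ s ∈ 𝒯, ∀ t ∈ 𝒯, s ≠ t → IsEmpty (@Homeomorph P P s t) := by
  obtain ⟨Z, _, h1, h2, h3, h4, h5, h6⟩ := exists_crowded
  obtain ⟨A, hA⟩ := Pool.Agent.H94R3.CellLin.exists_indep
  obtain ⟨𝒯, h𝒯, hcard, hne⟩ := exists_many (P := Option (ℕ × Z)) (fun S => top Z (FS A S))
    (top_injective.comp (FS_injective hA))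
  refine ⟨Option (ℕ × Z), inferInstance, 𝒯, hcard, ?_, ?_⟩
  · intro t ht
    obtain ⟨S, rfl⟩ := h𝒯 ht
    have := FS_neBot hA S
    refine ⟨t3_top _ (FS_le A S), whyburn_top _ h4 (FS_le A S), crowded_top _ h5, ?_⟩
    intro h
    exact h6 (@selectively_of_isOpenEmbedding _ _ _ (top Z (FS A S)) (emb 0)
      (isOpenEmbedding_emb (FS A S) 0) h)
  · intro s hs t ht hst
    rw [← not_nonempty_iff, ← homeo_iff]
    exact hne s hs t ht hst

/-- The number of all topologies on a countable set is at most `2 ^ 𝔠`. -/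
theorem mk_topologies (P : Type) [Countable P] :
    mk (TopologicalSpace P) ≤ 2 ^ continuum.{0} := by
  have h1 : mk (TopologicalSpace P) ≤ mk (Set (Set P)) :=
    Cardinal.mk_le_of_injective (f := fun t : TopologicalSpace P => {U | IsOpen[t] U})
      (fun s t h => TopologicalSpace.ext_iff.2 (fun U => Set.ext_iff.1 h U))
  refine h1.trans ?_
  rw [Cardinal.mk_set, Cardinal.mk_set]
  apply Cardinal.power_le_power_left two_ne_zero
  calc (2 : Cardinal.{0}) ^ mk P ≤ 2 ^ aleph0 :=
        Cardinal.power_le_power_left two_ne_zero Cardinal.mk_le_aleph0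
    _ = continuum.{0} := Cardinal.two_power_aleph0

/-- The d-separable version in every infinite cardinality. -/
theorem every_cardinality (κ : Cardinal.{0}) (hκ : aleph0 ≤ κ) :
    ∃ (X : Type) (_ : TopologicalSpace X), mk X = κ ∧ T3Space X ∧ Whyburn X ∧
      WeaklyDSeparable X ∧ (∀ x : X, ¬ IsOpen {x}) ∧ ¬ SelectivelyDSeparable X := by
  obtain ⟨Z, _, h1, h2, h3, h4, h5, h6⟩ := exists_crowded
  obtain ⟨K, rfl⟩ : ∃ K : Type, mk K = κ := ⟨κ.out, Cardinal.mk_out κ⟩
  have hK : Nonempty K := by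
    rw [← Cardinal.mk_ne_zero_iff]
    rintro h
    rw [h] at hκ
    exact absurd hκ (not_le.2 Cardinal.aleph0_pos)
  let _ : TopologicalSpace K := ⊥
  have _ : DiscreteTopology K := ⟨rfl⟩
  let f : K → Z → K × Z := fun k z => (k, z)
  have hopen : ∀ k, IsOpenEmbedding (f k) := by
    intro k
    refine .of_continuous_injective_isOpenMap (by fun_prop) (fun a b h => (Prod.mk.inj h).2) ?_
    intro V hV
    have : f k '' V = {k} ×ˢ V := by
      ext ⟨a, b⟩
      simp [f]
      tauto
    rw [this]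
    exact (isOpen_discrete _).prod hV
  have hclosed : ∀ k, IsClosedEmbedding (f k) := by
    intro k
    refine ⟨(hopen k).isEmbedding, ?_⟩
    have : range (f k) = {k} ×ˢ univ := by
      ext ⟨a, b⟩
      simp [f]
      tauto
    rw [this]
    exact (isClosed_discrete _).prod isClosed_univ
  refine ⟨K × Z, inferInstance, ?_, inferInstance, ?_, ?_, ?_, ?_⟩
  · rw [Cardinal.mk_prod, Cardinal.lift_id, Cardinal.lift_id]
    exact Cardinal.mul_eq_left hκ (Cardinal.mk_le_aleph0.trans hκ) (Cardinal.mk_ne_zero_iff.2 h2)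
  · rintro A ⟨k, z⟩ h
    exact whyburn_aux h4 (f k) (hopen k) (hclosed k) A z h
  · obtain ⟨g, hg⟩ := exists_surjective_nat Z
    refine ⟨fun n => {x | x.2 = g n}, fun n => ?_, ?_⟩
    · rw [isDiscrete_iff_forall_mem_exists_isOpen]
      rintro ⟨k, z⟩ hx
      refine ⟨range (f k), (hopen k).isOpen_range, ?_⟩
      ext ⟨a, b⟩
      simp only [mem_inter_iff, mem_range, mem_ofPred_eq, mem_singleton_iff, Prod.mk.injEq, f] at hx ⊢
      constructor
      · rintro ⟨⟨w, rfl, rfl⟩, hb⟩
        exact ⟨rfl, hb.trans hx.symm⟩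
      · rintro ⟨rfl, rfl⟩
        exact ⟨⟨b, rfl, rfl⟩, hx⟩
    · have : (⋃ n, {x : K × Z | x.2 = g n}) = univ := by
        ext x
        simp only [mem_iUnion, mem_ofPred_eq, mem_univ, iff_true]
        obtain ⟨n, hn⟩ := hg x.2
        exact ⟨n, hn.symm⟩
      rw [this]
      exact dense_univ
  · rintro ⟨k, z⟩ h
    apply h5 z
    have h7 := h.preimage (hopen k).continuous
    convert h7 using 1
    ext w
    simp [f]
  · intro h
    exact h6 (selectively_of_isOpenEmbedding (hopen hK.some) h)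

end Pool.Agent.KS6_1.Whyb
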